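import Pool.Agent.Lib.MP_ba0fa5_ag.Iface

/-!
MP_ba0fa5_ag, module NPAIR: the sieve for pairs (Paper II.7), from NREC, NSIEVE and NRANKIN.
-/

set_option autoImplicit false
set_option linter.unusedVariables false

namespace Pool.Agent.Lib.MP_ba0fa5_ag.H17

open scoped Classical
open Finset

theorem one_add_ge (l : ℕ) (hl : 1 ≤ l) :
    Real.exp (2 / (l : ℝ) - 4 * ((l : ℝ) ^ 2)⁻¹) ≤ 1 + 2 / (l : ℝ) := by
  have hl' : (1 : ℝ) ≤ l := by exact_mod_cast hl
  have h0 : (0 : ℝ) < l := by linarith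
  have h1 : Real.exp (2 / ((l : ℝ) + 2)) ≤ 1 + 2 / (l : ℝ) := by
    have h2 := Real.add_one_le_exp (-(2 / ((l : ℝ) + 2)))
    rw [Real.exp_neg] at h2
    have h3 : (0 : ℝ) < -(2 / ((l : ℝ) + 2)) + 1 := by
      have : 2 / ((l : ℝ) + 2) < 1 := by rw [div_lt_one (by linarith)]; linarith
      linarith
    have h4 := inv_anti₀ h3 h2
    rw [inv_inv] at h4
    refine h4.trans (le_of_eq ?_)
    have h5 : -(2 / ((l : ℝ) + 2)) + 1 = l / (l + 2) := by field_simp; ring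
    rw [h5, inv_div]
    field_simp
  refine le_trans (Real.exp_le_exp.2 ?_) h1
  have h6 : 2 / ((l : ℝ) + 2) - (2 / (l : ℝ) - 4 * ((l : ℝ) ^ 2)⁻¹) = 8 / ((l : ℝ) ^ 2 * (l + 2)) := by
    field_simp
    ring
  have h7 : 0 ≤ 8 / ((l : ℝ) ^ 2 * (l + 2)) := by positivity
  linarith

theorem prod_lower (h1 : NrecStmt) (S : Set ℕ) (hS : Mert S) : ∃ c : ℝ, 0 < c ∧ ∀ y : ℕ, 3 ≤ y →
    c * (Real.log y) ^ (3 / 2 : ℝ) ≤
      ∏ l ∈ (Icc 1 y).filter (fun l => l.Prime ∧ l ∉ S), (1 + 2 / (l : ℝ)) := by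
  obtain ⟨C, hC⟩ := h1 S hS
  refine ⟨Real.exp (-(2 * C + 8)), Real.exp_pos _, ?_⟩
  intro y hy
  have h2 := (abs_le.1 (hC y hy).2).1
  have h3 : ∏ l ∈ (Icc 1 y).filter (fun l => l.Prime ∧ l ∉ S),
      Real.exp (2 / (l : ℝ) - 4 * ((l : ℝ) ^ 2)⁻¹) ≤
      ∏ l ∈ (Icc 1 y).filter (fun l => l.Prime ∧ l ∉ S), (1 + 2 / (l : ℝ)) := by
    apply Finset.prod_le_prod
    · intro l _; exact (Real.exp_pos _).le
    · intro l hl
      exact one_add_ge l (Finset.mem_Icc.1 (Finset.mem_filter.1 hl).1).1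
  refine le_trans ?_ h3
  rw [← Real.exp_sum, Finset.sum_sub_distrib]
  have hlog : 0 < Real.log y := Real.log_pos (by exact_mod_cast (by omega : 1 < y))
  have h4 : (Real.log y) ^ (3 / 2 : ℝ) = Real.exp ((3 / 2) * Real.log (Real.log y)) := by
    rw [Real.rpow_def_of_pos hlog, mul_comm]
  rw [h4, ← Real.exp_add]
  apply Real.exp_le_exp.2
  have h5 : ∑ l ∈ (Icc 1 y).filter (fun l => l.Prime ∧ l ∉ S), 2 / (l : ℝ)
      = 2 * ∑ l ∈ (Icc 1 y).filter (fun l => l.Prime ∧ l ∉ S), (1 : ℝ) / l := by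
    rw [Finset.mul_sum]
    apply Finset.sum_congr rfl
    intro l _
    ring
  have h6 : ∑ l ∈ (Icc 1 y).filter (fun l => l.Prime ∧ l ∉ S), 4 * ((l : ℝ) ^ 2)⁻¹ ≤ 8 := by
    rw [← Finset.mul_sum]
    have h7 : ∑ l ∈ (Icc 1 y).filter (fun l => l.Prime ∧ l ∉ S), ((l : ℝ) ^ 2)⁻¹
        ≤ ∑ l ∈ Ioo 0 (y + 1), ((l : ℝ) ^ 2)⁻¹ := by
      apply Finset.sum_le_sum_of_subset_of_nonneg
      · intro l hl
        have := Finset.mem_Icc.1 (Finset.mem_filter.1 hl).1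
        rw [Finset.mem_Ioo]
        omega
      · intro l _ _; positivity
    have h8 := sum_Ioo_inv_sq_le (α := ℝ) 0 (y + 1)
    norm_num at h8
    linarith
  rw [h5]
  linarith

/-- the two forbidden classes -/
theorem omega_card (l : ℕ) (hl : l.Prime) (a b a' b' : ℕ) (hb : ¬ l ∣ b) (hb' : ¬ l ∣ b')
    (hne : ∀ w, l ∣ a + w * b → ¬ l ∣ a' + w * b') :
    ((range l).filter (fun r => l ∣ a + r * b ∨ l ∣ a' + r * b')).card = 2 := by
  have : Fact l.Prime := ⟨hl⟩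
  have key : ∀ a b : ℕ, ¬ l ∣ b → ∃ r, r < l ∧ ∀ w, w < l → (l ∣ a + w * b ↔ w = r) := by
    intro a b hb
    have hb0 : (b : ZMod l) ≠ 0 := by
      intro h
      exact hb ((ZMod.natCast_eq_zero_iff _ _).1 h)
    refine ⟨(-(a : ZMod l) / b).val, ZMod.val_lt _, ?_⟩
    intro w hw
    rw [← ZMod.natCast_eq_zero_iff]
    push_cast
    constructor
    · intro h
      have h2 : (w : ZMod l) = -(a : ZMod l) / b := by
        rw [eq_div_iff hb0]
        linear_combination h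
      rw [← h2, ZMod.val_natCast, Nat.mod_eq_of_lt hw]
    · intro h
      have h2 : (w : ZMod l) = -(a : ZMod l) / b := by
        rw [h, ZMod.natCast_zmod_val]
      rw [h2]
      field_simp
      ring
  obtain ⟨r, hr, hr'⟩ := key a b hb
  obtain ⟨s, hs, hs'⟩ := key a' b' hb'
  have hrs : r ≠ s := by
    intro h
    exact hne r ((hr' r hr).2 rfl) ((hs' r hr).2 h)
  have : (range l).filter (fun r => l ∣ a + r * b ∨ l ∣ a' + r * b') = {r, s} := by
    ext w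
    rw [Finset.mem_filter, Finset.mem_range, Finset.mem_insert, Finset.mem_singleton]
    constructor
    · rintro ⟨hw, h⟩
      rcases h with h | h
      · exact Or.inl ((hr' w hw).1 h)
      · exact Or.inr ((hs' w hw).1 h)
    · rintro (h | h)
      · subst h; exact ⟨hr, Or.inl ((hr' w hr).2 rfl)⟩
      · subst h; exact ⟨hs, Or.inr ((hs' w hs).2 rfl)⟩
  rw [this, Finset.card_pair hrs]

theorem mod_iff (l a b w : ℕ) : l ∣ a + (w % l) * b ↔ l ∣ a + w * b := by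
  have h : a + (w % l) * b ≡ a + w * b [MOD l] :=
    Nat.ModEq.add_left _ (Nat.ModEq.mul_right _ (Nat.mod_modEq w l))
  exact h.dvd_iff dvd_rfl

theorem Phi_ge_one (S : Set ℕ) (n : ℕ) : 1 ≤ Phi S n := by
  unfold Phi
  have h := Finset.prod_le_prod (s := n.primeFactors.filter (fun l : ℕ => l ∉ S))
    (f := fun _ => (1 : ℝ)) (g := fun l : ℕ => 1 + 2 / (l : ℝ)) (fun _ _ => by norm_num)
    (fun l _ => by
      have : (0 : ℝ) ≤ 2 / (l : ℝ) := by positivity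
      linarith)
  rwa [Finset.prod_const_one] at h

theorem prod_mono {s t : Finset ℕ} (f : ℕ → ℝ) (hf : ∀ l, 1 ≤ f l) (hst : s ⊆ t) :
    ∏ l ∈ s, f l ≤ ∏ l ∈ t, f l := by
  rw [← Finset.prod_sdiff hst]
  have h1 : (1 : ℝ) ≤ ∏ l ∈ t \ s, f l := by
    have h := Finset.prod_le_prod (s := t \ s) (f := fun _ => (1 : ℝ)) (g := f)
      (fun _ _ => by norm_num) (fun l _ => hf l)
    rwa [Finset.prod_const_one] at h
  have h2 : (0 : ℝ) ≤ ∏ l ∈ s, f l := Finset.prod_nonneg (fun l _ => by linarith [hf l])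
  nlinarith

theorem prod_union_le (s t : Finset ℕ) (f : ℕ → ℝ) (hf : ∀ l, 1 ≤ f l) :
    ∏ l ∈ s ∪ t, f l ≤ (∏ l ∈ s, f l) * ∏ l ∈ t, f l := by
  rw [← Finset.prod_union_inter]
  have h1 : (1 : ℝ) ≤ ∏ l ∈ s ∩ t, f l := by
    have h := Finset.prod_le_prod (s := s ∩ t) (f := fun _ => (1 : ℝ)) (g := f)
      (fun _ _ => by norm_num) (fun l _ => hf l)
    rwa [Finset.prod_const_one] at h
  have h2 : (0 : ℝ) ≤ ∏ l ∈ s ∪ t, f l := Finset.prod_nonneg (fun l _ => by linarith [hf l])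
  nlinarith

theorem param (h h' : ℕ) (Δ : ℤ) (p1 : 1 ≤ h) (p2 : 1 ≤ h')
    (hex : ∃ x x' : ℕ, (x * h : ℤ) - x' * h' = Δ) :
    ∃ x0 x0' : ℕ, (x0 * h : ℤ) - x0' * h' = Δ ∧ ∀ x x' : ℕ, (x * h : ℤ) - x' * h' = Δ →
      ∃ w : ℕ, x = x0 + w * (h' / h.gcd h') ∧ x' = x0' + w * (h / h.gcd h') := by
  have hx := Nat.find_spec hex
  obtain ⟨x0', h0⟩ := hx
  refine ⟨Nat.find hex, x0', h0, ?_⟩
  have hmin : ∀ x x' : ℕ, (x * h : ℤ) - x' * h' = Δ → Nat.find hex ≤ x :=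
    fun x x' hh => Nat.find_min' hex ⟨x', hh⟩
  generalize Nat.find hex = x0 at h0 hmin
  intro x x' hxx
  have hle := hmin x x' hxx
  obtain ⟨d, rfl⟩ := Nat.exists_eq_add_of_le hle
  have hG : 0 < h.gcd h' := Nat.gcd_pos_of_pos_left _ p1
  have e1 : (h.gcd h') * (h / h.gcd h') = h := Nat.mul_div_cancel' (Nat.gcd_dvd_left _ _)
  have e2 : (h.gcd h') * (h' / h.gcd h') = h' := Nat.mul_div_cancel' (Nat.gcd_dvd_right _ _)
  have hcop : (h / h.gcd h').Coprime (h' / h.gcd h') := Nat.coprime_div_gcd_div_gcd hG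
  set G := h.gcd h' with hGdef
  set a := h / G with ha
  set b := h' / G with hb
  have hb0 : 0 < b := by
    rcases Nat.eq_zero_or_pos b with h5 | h5
    · rw [h5] at e2; omega
    · exact h5
  have h3 : (d : ℤ) * a = ((x' : ℤ) - x0') * b := by
    have hGz : (G : ℤ) ≠ 0 := by exact_mod_cast hG.ne'
    apply mul_left_cancel₀ hGz
    have e1' : (G : ℤ) * a = h := by exact_mod_cast e1
    have e2' : (G : ℤ) * b = h' := by exact_mod_cast e2
    push_cast at hxx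
    linear_combination (hxx - h0) + (d : ℤ) * e1' - ((x' : ℤ) - x0') * e2'
  have h4 : (b : ℤ) ∣ (d : ℤ) * a := ⟨(x' : ℤ) - x0', by rw [h3]; ring⟩
  have h5 : b ∣ d := by
    have h6 : b ∣ d * a := by exact_mod_cast h4
    exact hcop.symm.dvd_of_dvd_mul_right h6
  obtain ⟨w, rfl⟩ := h5
  refine ⟨w, by ring, ?_⟩
  have h7 : (x' : ℤ) = x0' + w * a := by
    have hbz : (b : ℤ) ≠ 0 := by exact_mod_cast hb0.ne'
    apply mul_left_cancel₀ hbz
    push_cast at h3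
    linear_combination -h3
  exact_mod_cast h7

/-- the `y` with `y ^ B ≤ Z` -/
theorem exists_root (B Z : ℕ) (hB : 2 ≤ B) (hZ : 4 ^ B ≤ Z) : ∃ y : ℕ, 4 ≤ y ∧ y ^ B ≤ Z ∧
    Real.log Z ≤ 2 * B * Real.log y := by
  have h0 : ∃ y, Nat.findGreatest (fun y => y ^ B ≤ Z) Z = y := ⟨_, rfl⟩
  obtain ⟨y, hy⟩ := h0
  have h4 : 4 ≤ Z := by
    calc 4 = 4 ^ 1 := by norm_num
      _ ≤ 4 ^ B := Nat.pow_le_pow_right (by norm_num) (by omega)
      _ ≤ Z := hZ
  have h1 : 4 ≤ y := by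
    rw [← hy]
    exact Nat.le_findGreatest h4 hZ
  have h2 : y ^ B ≤ Z := by
    have := Nat.findGreatest_spec (P := fun y => y ^ B ≤ Z) h4 hZ
    rw [hy] at this
    exact this
  have h3 : Z < (y + 1) ^ B := by
    by_contra hcon
    push Not at hcon
    have h5 : y + 1 ≤ Z := (Nat.le_self_pow (by omega) _).trans hcon
    have := Nat.le_findGreatest (P := fun y => y ^ B ≤ Z) h5 hcon
    omega
  refine ⟨y, h1, h2, ?_⟩
  have h6 : (Z : ℝ) ≤ ((y : ℝ) ^ 2) ^ B := by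
    have h7 : y + 1 ≤ y ^ 2 := by nlinarith
    have h8 : Z ≤ (y ^ 2) ^ B := h3.le.trans (Nat.pow_le_pow_left h7 B)
    exact_mod_cast h8
  have hZ0 : (0 : ℝ) < Z := by exact_mod_cast (by omega : 0 < Z)
  have h9 := Real.log_le_log hZ0 h6
  rw [Real.log_pow, Real.log_pow] at h9
  push_cast at h9
  linarith

/-- counting the parameters `w` -/
theorem count_le (h1 : NsieveStmt) (P : Finset ℕ) (M D x0 x0' a b : ℕ) (hD : 1 ≤ D)
    (hP : ∀ l ∈ P, l.Prime ∧ 3 ≤ l ∧ ¬ l ∣ a ∧ ¬ l ∣ b ∧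
      ∀ w, l ∣ x0 + w * b → ¬ l ∣ x0' + w * a) :
    (((range M).filter (fun w => ∀ l ∈ P, ¬ l ∣ x0 + w * b ∧ ¬ l ∣ x0' + w * a)).card : ℝ) ≤
      M / (∑ s ∈ sfs P D, ∏ l ∈ s.primeFactors,
        ((((range l).filter (fun r => l ∣ x0 + r * b ∨ l ∣ x0' + r * a)).card : ℝ) / l))
        + (D : ℝ) ^ 4 := by
  have h2 := h1 P (fun l => (range l).filter (fun r => l ∣ x0 + r * b ∨ l ∣ x0' + r * a)) M D hD
    (by
      intro l hl
      obtain ⟨q1, q2, q3, q4, q5⟩ := hP l hl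
      have h3 := omega_card l q1 x0 b x0' a q4 q3 q5
      refine ⟨q1, ?_, ?_, ?_, ?_⟩
      · intro r hr
        exact Finset.mem_range.1 (Finset.mem_filter.1 hr).1
      · exact h3.le
      · rw [h3]; norm_num
      · rw [h3]; omega)
  refine le_trans (le_of_eq ?_) h2
  congr 1
  apply congrArg
  apply Finset.filter_congr
  intro w _
  apply forall_congr'
  intro l
  apply forall_congr'
  intro hl
  have hl0 : 0 < l := (hP l hl).1.pos
  rw [Finset.mem_filter, Finset.mem_range, mod_iff, mod_iff]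
  constructor
  · rintro ⟨h5, h6⟩ ⟨_, h7⟩
    rcases h7 with h7 | h7
    · exact h5 h7
    · exact h6 h7
  · intro h5
    push Not at h5
    exact h5 (Nat.mod_lt _ hl0)

theorem npair (h1 : NsieveStmt) (h2 : NrankinStmt) (h3 : NrecStmt) : NpairStmt := by
  intro S K hS hK
  obtain ⟨c, hc, hprod⟩ := prod_lower h3 S hS
  obtain ⟨B, D₀, hB, hR⟩ := h2
  have hB0 : (0 : ℝ) < B := by exact_mod_cast (by omega : 0 < B)
  set c1 : ℝ := c / 4 * (1 / (2 * B)) ^ (3 / 2 : ℝ) with hc1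
  have hc1' : 0 < c1 := by positivity
  refine ⟨2 / c1 + 1, max D₀ (4 ^ B), ?_⟩
  intro Z hZ h h' Δ p1 p2 p3 p4 p5 p6
  have hZ1 : D₀ ≤ Z := (le_max_left _ _).trans hZ
  have hZ2 : 4 ^ B ≤ Z := (le_max_right _ _).trans hZ
  have hZ4 : 4 ≤ Z := by
    calc 4 = 4 ^ 1 := by norm_num
      _ ≤ 4 ^ B := Nat.pow_le_pow_right (by norm_num) (by omega)
      _ ≤ Z := hZ2
  have hZR : (4 : ℝ) ≤ Z := by exact_mod_cast hZ4
  have hlogZ : 0 < Real.log Z := Real.log_pos (by linarith)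
  set A := ((qset S 0 (XX K Z) ×ˢ qset S 0 (XX K Z)).filter (fun t : ℕ × ℕ =>
      (t.1 * h : ℤ) - t.2 * h' = Δ ∧ t.1 * h ≤ XX K Z)) with hA
  set G := h.gcd h' with hGdef
  have hG0 : 0 < G := Nat.gcd_pos_of_pos_left _ p1
  have hGR : (1 : ℝ) ≤ G := by exact_mod_cast hG0
  have hhR : (1 : ℝ) ≤ h := by exact_mod_cast p1
  have hhR' : (1 : ℝ) ≤ h' := by exact_mod_cast p2
  set V : ℝ := (XX K Z : ℝ) * G / (h * h') with hV
  set F : ℝ := Phi S h * Phi S h' * Phi S Δ.natAbs with hF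
  have hF1 : 1 ≤ F := by
    have e1 := Phi_ge_one S h
    have e2 := Phi_ge_one S h'
    have e3 := Phi_ge_one S Δ.natAbs
    have e4 : 1 ≤ Phi S h * Phi S h' := one_le_mul_of_one_le_of_one_le e1 e2
    exact one_le_mul_of_one_le_of_one_le e4 e3
  have hV0 : 0 ≤ V := by positivity
  set Q : ℝ := (Real.log Z) ^ (-(3 / 2) : ℝ) with hQ
  have hQ0 : 0 < Q := Real.rpow_pos_of_pos hlogZ _
  rcases Finset.eq_empty_or_nonempty A with hAe | ⟨t, ht⟩
  · rw [hAe, Finset.card_empty, Nat.cast_zero]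
    positivity
  have hex : ∃ x x' : ℕ, (x * h : ℤ) - x' * h' = Δ :=
    ⟨t.1, t.2, (Finset.mem_filter.1 ht).2.1⟩
  obtain ⟨x0, x0', hx0, hpar⟩ := param h h' Δ p1 p2 hex
  rw [← hGdef] at hpar
  have e1 : G * (h / G) = h := Nat.mul_div_cancel' (Nat.gcd_dvd_left _ _)
  have e2 : G * (h' / G) = h' := Nat.mul_div_cancel' (Nat.gcd_dvd_right _ _)
  set a := h / G with ha
  set b := h' / G with hb
  -- size of V
  have hVbig : (Z : ℝ) ^ 6 ≤ V := by
    have hN : 1 ≤ 3 * K + 12 * K * K := by nlinarith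
    have hXX : (XX K Z : ℝ) = ((Z : ℝ) ^ (3 * K + 12 * K * K)) ^ 8 := by
      unfold XX; push_cast; rw [← pow_mul]; congr 1; ring
    have q3 : (h : ℝ) ≤ (Z : ℝ) ^ (3 * K + 12 * K * K) := by exact_mod_cast p3
    have q4 : (h' : ℝ) ≤ (Z : ℝ) ^ (3 * K + 12 * K * K) := by exact_mod_cast p4
    have q5 : (Z : ℝ) ≤ (Z : ℝ) ^ (3 * K + 12 * K * K) := le_self_pow₀ (by linarith) (by omega)
    rw [hV, le_div_iff₀ (by positivity), hXX]
    generalize (Z : ℝ) ^ (3 * K + 12 * K * K) = H at q3 q4 q5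
    have hH0 : 0 ≤ H := by linarith
    calc (Z : ℝ) ^ 6 * (h * h') ≤ H ^ 6 * (H * H) := by gcongr
      _ = H ^ 8 * 1 := by ring
      _ ≤ H ^ 8 * G := by gcongr
  set M := ⌊V⌋₊ + 1 with hM
  have hMV : (M : ℝ) ≤ 2 * V := by
    have h5 : (⌊V⌋₊ : ℝ) ≤ V := Nat.floor_le hV0
    have h6 : (1 : ℝ) ≤ (Z : ℝ) ^ 6 := one_le_pow₀ (by linarith)
    rw [hM]; push_cast; linarith
  obtain ⟨y, hy4, hyB, hlogy⟩ := exists_root B Z hB hZ2
  set P := (Icc 1 y).filter (fun l => (l.Prime ∧ l ∉ S) ∧ ¬ l ∣ 2 * h * h' * Δ.natAbs) with hP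
  have hPprop : ∀ l ∈ P, l.Prime ∧ 3 ≤ l ∧ ¬ l ∣ a ∧ ¬ l ∣ b ∧
      ∀ w, l ∣ x0 + w * b → ¬ l ∣ x0' + w * a := by
    intro l hl
    obtain ⟨_, ⟨hlp, hlS⟩, hnd⟩ := Finset.mem_filter.1 hl
    refine ⟨hlp, ?_, ?_, ?_, ?_⟩
    · have h5 : l ≠ 2 := by
        rintro rfl
        exact hnd ⟨h * h' * Δ.natAbs, by ring⟩
      have := hlp.two_le
      omega
    · intro h5
      exact hnd ((h5.trans (Dvd.intro_left G e1)).trans
        ⟨2 * h' * Δ.natAbs, by ring⟩)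
    · intro h5
      exact hnd ((h5.trans (Dvd.intro_left G e2)).trans
        ⟨2 * h * Δ.natAbs, by ring⟩)
    · intro w h5 h6
      apply hnd
      have h7 : (l : ℤ) ∣ Δ := by
        obtain ⟨u, hu⟩ := h5
        obtain ⟨v, hv⟩ := h6
        have hu' : (x0 : ℤ) + w * b = l * u := by exact_mod_cast hu
        have hv' : (x0' : ℤ) + w * a = l * v := by exact_mod_cast hv
        refine ⟨u * h - v * h', ?_⟩
        have e1' : (G : ℤ) * a = h := by exact_mod_cast e1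
        have e2' : (G : ℤ) * b = h' := by exact_mod_cast e2
        linear_combination -hx0 + (h : ℤ) * hu' - (h' : ℤ) * hv' + (w : ℤ) * b * e1'
          - (w : ℤ) * a * e2'
      have h8 : l ∣ Δ.natAbs := Int.natCast_dvd.1 h7
      exact h8.trans ⟨2 * h * h', by ring⟩
  have hcard : (A.card : ℝ) ≤ (((range M).filter (fun w => ∀ l ∈ P, ¬ l ∣ x0 + w * b ∧
      ¬ l ∣ x0' + w * a)).card : ℝ) := by
    have hsub : A ⊆ ((range M).filter (fun w => ∀ l ∈ P, ¬ l ∣ x0 + w * b ∧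
      ¬ l ∣ x0' + w * a)).image (fun w => (x0 + w * b, x0' + w * a)) := by
      rintro ⟨x, x'⟩ hx
      rw [hA, Finset.mem_filter, Finset.mem_product] at hx
      obtain ⟨⟨k1, k2⟩, k3, k4⟩ := hx
      unfold qset at k1 k2
      rw [Finset.mem_filter] at k1 k2
      obtain ⟨w, hw1, hw2⟩ := hpar x x' k3
      rw [Finset.mem_image]
      refine ⟨w, ?_, by rw [hw1, hw2]⟩
      rw [Finset.mem_filter]
      refine ⟨?_, ?_⟩
      · rw [Finset.mem_range, hM, Nat.lt_add_one_iff]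
        apply Nat.le_floor
        rw [hV, le_div_iff₀ (by positivity)]
        have e2' : (G : ℝ) * b = h' := by exact_mod_cast e2
        have k5 : w * b * h ≤ XX K Z := by
          refine le_trans (Nat.mul_le_mul_right _ ?_) k4
          show w * b ≤ x
          omega
        have k6 : (w : ℝ) * b * h ≤ XX K Z := by exact_mod_cast k5
        calc (w : ℝ) * (h * h') = (w * b * h) * G := by rw [← e2']; ring
          _ ≤ (XX K Z) * G := by gcongr
      · intro l hl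
        obtain ⟨_, ⟨hlp, hlS⟩, hnd⟩ := Finset.mem_filter.1 hl
        rw [← hw1, ← hw2]
        exact ⟨fun h5 => hlS (k1.2.2 l hlp h5), fun h5 => hlS (k2.2.2 l hlp h5)⟩
    have := (Finset.card_le_card hsub).trans Finset.card_image_le
    exact_mod_cast this
  have hsv := count_le h1 P M Z x0 x0' a b (by omega) hPprop
  have hG2 : (1 / 2) * ∏ l ∈ P, (1 + 2 / (l : ℝ)) ≤ ∑ s ∈ sfs P Z, ∏ l ∈ s.primeFactors,
        ((((range l).filter (fun r => l ∣ x0 + r * b ∨ l ∣ x0' + r * a)).card : ℝ) / l) := by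
    have h5 := hR Z hZ1 P
      (fun l => (((range l).filter (fun r => l ∣ x0 + r * b ∨ l ∣ x0' + r * a)).card : ℝ)) (by
        intro l hl
        obtain ⟨q1, q2, q3, q4, q5⟩ := hPprop l hl
        have h6 := omega_card l q1 x0 b x0' a q4 q3 q5
        refine ⟨q1, ?_, by positivity, ?_⟩
        · have h7 : l ≤ y := (Finset.mem_Icc.1 (Finset.mem_filter.1 hl).1).2
          exact (Nat.pow_le_pow_left h7 B).trans hyB
        · simp only [h6]; norm_num)
    refine le_trans (le_of_eq ?_) h5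
    congr 1
    apply Finset.prod_congr rfl
    intro l hl
    obtain ⟨q1, q2, q3, q4, q5⟩ := hPprop l hl
    simp only [omega_card l q1 x0 b x0' a q4 q3 q5]
    norm_num
  set q : ℝ := (1 / 2) * ∏ l ∈ P, (1 + 2 / (l : ℝ)) with hq
  have hq0 : 0 < q := by
    have : 0 < ∏ l ∈ P, (1 + 2 / (l : ℝ)) := Finset.prod_pos (fun l _ => by positivity)
    positivity
  have hlow : c1 * (Real.log Z) ^ (3 / 2 : ℝ) ≤ F * q := by
    have h5 := hprod y (by omega)
    have hf : ∀ l : ℕ, (1 : ℝ) ≤ 1 + 2 / (l : ℝ) := by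
      intro l
      have : (0 : ℝ) ≤ 2 / (l : ℝ) := by positivity
      linarith
    have h6 : (Icc 1 y).filter (fun l => l.Prime ∧ l ∉ S) ⊆ P ∪ ({2} ∪
        (h.primeFactors.filter (fun l => l ∉ S) ∪ (h'.primeFactors.filter (fun l => l ∉ S) ∪
          Δ.natAbs.primeFactors.filter (fun l => l ∉ S)))) := by
      intro l hl
      obtain ⟨k1, k2, k3⟩ := Finset.mem_filter.1 hl
      by_cases hd : l ∣ 2 * h * h' * Δ.natAbs
      · have hh0 : h ≠ 0 := by omega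
        have hh0' : h' ≠ 0 := by omega
        have hD0 : Δ.natAbs ≠ 0 := by rw [Int.natAbs_ne_zero]; exact p5
        simp only [Finset.mem_union, Finset.mem_singleton, Finset.mem_filter,
          Nat.mem_primeFactors]
        rcases (k2.dvd_mul).1 hd with hd | hd
        · rcases (k2.dvd_mul).1 hd with hd | hd
          · rcases (k2.dvd_mul).1 hd with hd | hd
            · right; left
              exact (Nat.prime_dvd_prime_iff_eq k2 Nat.prime_two).1 hd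
            · right; right; left; exact ⟨⟨k2, hd, hh0⟩, k3⟩
          · right; right; right; left; exact ⟨⟨k2, hd, hh0'⟩, k3⟩
        · right; right; right; right; exact ⟨⟨k2, hd, hD0⟩, k3⟩
      · apply Finset.mem_union_left
        rw [hP, Finset.mem_filter]
        exact ⟨k1, ⟨k2, k3⟩, hd⟩
    have h7 := prod_mono (fun l : ℕ => 1 + 2 / (l : ℝ)) hf h6
    have pn : ∀ s : Finset ℕ, 0 ≤ ∏ l ∈ s, (1 + 2 / (l : ℝ)) := fun s =>
      Finset.prod_nonneg (fun l _ => by positivity)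
    have h8 : ∏ l ∈ P ∪ ({2} ∪ (h.primeFactors.filter (fun l => l ∉ S) ∪
        (h'.primeFactors.filter (fun l => l ∉ S) ∪
          Δ.natAbs.primeFactors.filter (fun l => l ∉ S)))), (1 + 2 / (l : ℝ)) ≤
        (∏ l ∈ P, (1 + 2 / (l : ℝ))) * (2 * (Phi S h * (Phi S h' * Phi S Δ.natAbs))) := by
      refine (prod_union_le _ _ _ hf).trans (mul_le_mul_of_nonneg_left ?_ (pn _))
      refine (prod_union_le _ _ _ hf).trans ?_
      rw [Finset.prod_singleton]
      have e5 : (1 : ℝ) + 2 / ((2 : ℕ) : ℝ) = 2 := by norm_num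
      rw [e5]
      refine mul_le_mul_of_nonneg_left ?_ (by norm_num)
      refine (prod_union_le _ _ _ hf).trans (mul_le_mul_of_nonneg_left ?_ (pn _))
      exact prod_union_le _ _ _ hf
    have h9 : c * (Real.log y) ^ (3 / 2 : ℝ) ≤
        (∏ l ∈ P, (1 + 2 / (l : ℝ))) * (2 * (Phi S h * (Phi S h' * Phi S Δ.natAbs))) :=
      h5.trans (h7.trans h8)
    have h10 : (1 / (2 * B) : ℝ) ^ (3 / 2 : ℝ) * (Real.log Z) ^ (3 / 2 : ℝ) ≤
        (Real.log y) ^ (3 / 2 : ℝ) := by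
      rw [← Real.mul_rpow (by positivity) hlogZ.le]
      apply Real.rpow_le_rpow (by positivity) _ (by norm_num)
      rw [one_div, inv_mul_le_iff₀ (by positivity)]
      exact hlogy
    calc c1 * (Real.log Z) ^ (3 / 2 : ℝ)
        = c / 4 * ((1 / (2 * B) : ℝ) ^ (3 / 2 : ℝ) * (Real.log Z) ^ (3 / 2 : ℝ)) := by
          rw [hc1]; ring
      _ ≤ c / 4 * (Real.log y) ^ (3 / 2 : ℝ) := by gcongr
      _ = (c * (Real.log y) ^ (3 / 2 : ℝ)) / 4 := by ring
      _ ≤ ((∏ l ∈ P, (1 + 2 / (l : ℝ))) * (2 * (Phi S h * (Phi S h' * Phi S Δ.natAbs)))) / 4 := by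
          gcongr
      _ = F * q := by rw [hF, hq]; ring
  have hQe : Q * (Real.log Z) ^ (3 / 2 : ℝ) = 1 := by
    rw [hQ, ← Real.rpow_add hlogZ]
    norm_num
  have hL0 : 0 < (Real.log Z) ^ (3 / 2 : ℝ) := Real.rpow_pos_of_pos hlogZ _
  set L := (Real.log Z) ^ (3 / 2 : ℝ) with hL
  have hLZ : L ≤ (Z : ℝ) ^ 2 := by
    have h5 : Real.log Z ≤ Z := by
      have := Real.log_le_sub_one_of_pos (by linarith : (0 : ℝ) < Z)
      linarith
    calc L ≤ (Z : ℝ) ^ (3 / 2 : ℝ) := Real.rpow_le_rpow hlogZ.le h5 (by norm_num)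
      _ ≤ (Z : ℝ) ^ (2 : ℝ) := Real.rpow_le_rpow_of_exponent_le (by linarith) (by norm_num)
      _ = (Z : ℝ) ^ 2 := by norm_num
  -- the main term
  have hmain : (M : ℝ) / (∑ s ∈ sfs P Z, ∏ l ∈ s.primeFactors,
        ((((range l).filter (fun r => l ∣ x0 + r * b ∨ l ∣ x0' + r * a)).card : ℝ) / l)) ≤
      2 / c1 * V * Q * F := by
    calc _ ≤ (M : ℝ) / q := div_le_div_of_nonneg_left (by positivity) hq0 hG2
      _ ≤ 2 * V / q := by gcongr
      _ ≤ 2 / c1 * V * Q * F := by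
          rw [div_le_iff₀ hq0]
          have h5 : 1 ≤ (Q * F * q) / c1 := by
            rw [le_div_iff₀ hc1', one_mul]
            calc c1 = Q * (c1 * L) := by rw [mul_left_comm, hQe, mul_one]
              _ ≤ Q * (F * q) := by gcongr
              _ = Q * F * q := by ring
          calc 2 * V = 2 * V * 1 := by ring
            _ ≤ 2 * V * ((Q * F * q) / c1) := by gcongr
            _ = 2 / c1 * V * Q * F * q := by ring
  have herr : (Z : ℝ) ^ 4 ≤ V * Q * F := by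
    have h5 : (Z : ℝ) ^ 4 ≤ V * Q := by
      calc (Z : ℝ) ^ 4 = (Z : ℝ) ^ 4 * (Q * L) := by rw [hQe, mul_one]
        _ ≤ (Z : ℝ) ^ 4 * (Q * (Z : ℝ) ^ 2) := by gcongr
        _ = (Z : ℝ) ^ 6 * Q := by ring
        _ ≤ V * Q := by gcongr
    calc (Z : ℝ) ^ 4 ≤ V * Q * 1 := by linarith
      _ ≤ V * Q * F := by gcongr
  calc (A.card : ℝ) ≤ _ := hcard
    _ ≤ _ := hsv
    _ ≤ 2 / c1 * V * Q * F + V * Q * F := add_le_add hmain herr
    _ = (2 / c1 + 1) * V * Q * F := by ring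

end Pool.Agent.Lib.MP_ba0fa5_ag.H17
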